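import Mathlib

set_option autoImplicit false

namespace Pool.Agent.Results.MP_01d095_an.L2Sum

/-- numerical radius of an operator on a real normed space -/
noncomputable def numRadius {X : Type} [NormedAddCommGroup X] [NormedSpace ℝ X]
    (T : X →L[ℝ] X) : ℝ :=
  sSup {s : ℝ | ∃ (x : X) (f : X →L[ℝ] ℝ), ‖x‖ = 1 ∧ ‖f‖ = 1 ∧ f x = 1 ∧ s = |f (T x)|}

/-- the skew-hermitian operators -/
def skew (X : Type) [NormedAddCommGroup X] [NormedSpace ℝ X] : Set (X →L[ℝ] X) :=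
  {S | numRadius S = 0}

/-- the quotient norm of `T` modulo the skew-hermitian operators -/
noncomputable def quotNorm {X : Type} [NormedAddCommGroup X] [NormedSpace ℝ X]
    (T : X →L[ℝ] X) : ℝ :=
  sInf {r : ℝ | ∃ S ∈ skew X, r = ‖T - S‖}

/-- the second numerical index -/
noncomputable def secondIndex (X : Type) [NormedAddCommGroup X] [NormedSpace ℝ X] : ℝ :=
  sSup {k : ℝ | 0 ≤ k ∧ ∀ T : X →L[ℝ] X, k * quotNorm T ≤ numRadius T}

section
variable {X : Type} [NormedAddCommGroup X] [NormedSpace ℝ X]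

lemma le_numRadius (T : X →L[ℝ] X) (x : X) (f : X →L[ℝ] ℝ) (hx : ‖x‖ = 1) (hf : ‖f‖ = 1)
    (hfx : f x = 1) : |f (T x)| ≤ numRadius T := by
  refine le_csSup ⟨‖T‖, ?_⟩ ⟨x, f, hx, hf, hfx, rfl⟩
  rintro _ ⟨y, g, hy, hg, -, rfl⟩
  calc |g (T y)| ≤ ‖g‖ * ‖T y‖ := g.le_opNorm _
    _ ≤ ‖g‖ * (‖T‖ * ‖y‖) := mul_le_mul_of_nonneg_left (T.le_opNorm _) (norm_nonneg _)
    _ = _ := by rw [hg, hy]; ring

lemma numRadius_nonneg (T : X →L[ℝ] X) : 0 ≤ numRadius T := by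
  refine Real.sSup_nonneg ?_
  rintro _ ⟨y, g, -, -, -, rfl⟩
  exact abs_nonneg _

lemma numRadius_le (T : X →L[ℝ] X) (c : ℝ) (hc : 0 ≤ c)
    (h : ∀ (x : X) (f : X →L[ℝ] ℝ), ‖x‖ = 1 → ‖f‖ = 1 → f x = 1 → |f (T x)| ≤ c) :
    numRadius T ≤ c := by
  refine Real.sSup_le ?_ hc
  rintro _ ⟨y, g, hy, hg, hgy, rfl⟩
  exact h y g hy hg hgy

lemma zero_skew : (0 : X →L[ℝ] X) ∈ skew X :=
  le_antisymm (numRadius_le _ 0 le_rfl (by simp)) (numRadius_nonneg _)

lemma quot_bdd (T : X →L[ℝ] X) : BddBelow {r : ℝ | ∃ S ∈ skew X, r = ‖T - S‖} :=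
  ⟨0, by rintro _ ⟨S, -, rfl⟩; exact norm_nonneg _⟩

lemma index_bdd [Nontrivial X] :
    BddAbove {k : ℝ | 0 ≤ k ∧ ∀ T : X →L[ℝ] X, k * quotNorm T ≤ numRadius T} := by
  refine ⟨1, fun k hk => ?_⟩
  obtain ⟨x, hx⟩ := exists_norm_eq X zero_le_one
  obtain ⟨f, hf, hfx⟩ := exists_dual_vector ℝ x (by rw [hx]; norm_num)
  have hfx' : f x = 1 := by simpa [hx] using hfx
  have h1 : 1 ≤ quotNorm (ContinuousLinearMap.id ℝ X) := by
    refine le_csInf ⟨_, 0, zero_skew, rfl⟩ ?_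
    rintro _ ⟨S, hS, rfl⟩
    have h0 := le_numRadius S x f hx hf hfx'
    rw [hS] at h0
    have h2 : f (S x) = 0 := abs_nonpos_iff.1 h0
    have h3 : f ((ContinuousLinearMap.id ℝ X - S) x) = 1 := by simp [hfx', h2]
    calc (1 : ℝ) = ‖f ((ContinuousLinearMap.id ℝ X - S) x)‖ := by rw [h3]; simp
      _ ≤ ‖f‖ * ‖(ContinuousLinearMap.id ℝ X - S) x‖ := f.le_opNorm _
      _ ≤ ‖f‖ * (‖ContinuousLinearMap.id ℝ X - S‖ * ‖x‖) :=
          mul_le_mul_of_nonneg_left (ContinuousLinearMap.le_opNorm _ _) (norm_nonneg _)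
      _ = _ := by rw [hf, hx]; ring
  have h2 := numRadius_le (ContinuousLinearMap.id ℝ X) 1 zero_le_one (by
    intro y g _ _ h; simp [h])
  have h3 := hk.2 (ContinuousLinearMap.id ℝ X)
  nlinarith [hk.1]

end

/-- comparison through a norm-one complemented isometric copy -/
lemma compare {X Y : Type} [NormedAddCommGroup X] [NormedSpace ℝ X] [NormedAddCommGroup Y]
    [NormedSpace ℝ Y] [Nontrivial Y] (J : Y →L[ℝ] X) (P : X →L[ℝ] Y) (hJ : ∀ y, ‖J y‖ = ‖y‖)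
    (hP : ∀ x, ‖P x‖ ≤ ‖x‖) (hPJ : ∀ y, P (J y) = y)
    (hface : ∀ (x : X) (f : X →L[ℝ] ℝ), ‖x‖ = 1 → ‖f‖ = 1 → f x = 1 →
      ‖f.comp J‖ ≤ ‖P x‖ ∧ f (J (P x)) = ‖P x‖ ^ 2) :
    secondIndex X ≤ secondIndex Y := by
  refine csSup_le_csSup index_bdd ⟨0, le_rfl, fun T => by simpa using numRadius_nonneg T⟩ ?_
  rintro k ⟨hk0, hk⟩
  refine ⟨hk0, fun T => ?_⟩
  have h1 : quotNorm T ≤ quotNorm (J.comp (T.comp P)) := by
    refine le_csInf ⟨_, 0, zero_skew, rfl⟩ ?_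
    rintro _ ⟨S, hS, rfl⟩
    refine csInf_le_of_le (quot_bdd T) ⟨P.comp (S.comp J), ?_, rfl⟩ ?_
    · refine le_antisymm (numRadius_le _ 0 le_rfl fun y g hy hg hgy => ?_) (numRadius_nonneg _)
      have hn : ‖g.comp P‖ = 1 := by
        apply le_antisymm
        · refine ContinuousLinearMap.opNorm_le_bound _ zero_le_one fun x => ?_
          calc ‖g (P x)‖ ≤ ‖g‖ * ‖P x‖ := g.le_opNorm _
            _ ≤ 1 * ‖x‖ := by rw [hg]; simpa using hP x
        · have := (g.comp P).le_opNorm (J y)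
          simpa [hPJ, hgy, hJ, hy] using this
      have := le_numRadius S (J y) (g.comp P) (by rw [hJ, hy]) hn (by simp [hPJ, hgy])
      rw [hS] at this
      simpa using this
    · refine ContinuousLinearMap.opNorm_le_bound _ (norm_nonneg _) fun y => ?_
      have e : (T - P.comp (S.comp J)) y = P ((J.comp (T.comp P) - S) (J y)) := by simp [hPJ]
      rw [e]
      refine (hP _).trans ?_
      simpa [hJ] using (J.comp (T.comp P) - S).le_opNorm (J y)
  have h2 : numRadius (J.comp (T.comp P)) ≤ numRadius T := by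
    refine numRadius_le _ _ (numRadius_nonneg T) fun x f hx hf hfx => ?_
    obtain ⟨a1, a2⟩ := hface x f hx hf hfx
    have hv := numRadius_nonneg T
    by_cases h0 : P x = 0
    · simpa [h0] using hv
    · have hpos : 0 < ‖P x‖ := norm_pos_iff.2 h0
      have hle : ‖P x‖ ≤ 1 := hx ▸ hP x
      have b1 : ‖(‖P x‖⁻¹ • P x)‖ = 1 := by
        rw [norm_smul, norm_inv, norm_norm, inv_mul_cancel₀ hpos.ne']
      have b2 : (‖P x‖⁻¹ • f.comp J) (‖P x‖⁻¹ • P x) = 1 := by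
        simp only [smul_apply, map_smul, ContinuousLinearMap.comp_apply, a2, smul_eq_mul]
        field_simp
      have b3 : ‖(‖P x‖⁻¹ • f.comp J)‖ = 1 := by
        apply le_antisymm
        · rw [norm_smul, norm_inv, norm_norm, inv_mul_le_iff₀ hpos, mul_one]
          exact a1
        · have := (‖P x‖⁻¹ • f.comp J).le_opNorm (‖P x‖⁻¹ • P x)
          rw [b1, b2] at this
          simpa using this
      have b4 := le_numRadius T _ _ b1 b3 b2
      simp only [smul_apply, map_smul, ContinuousLinearMap.comp_apply, smul_eq_mul, abs_mul,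
        abs_inv, abs_norm] at b4 ⊢
      rw [inv_mul_le_iff₀ hpos, inv_mul_le_iff₀ hpos] at b4
      refine b4.trans ?_
      calc _ ≤ 1 * (1 * numRadius T) := by gcongr
        _ = _ := by ring
  calc k * quotNorm T ≤ k * quotNorm (J.comp (T.comp P)) := mul_le_mul_of_nonneg_left h1 hk0
    _ ≤ _ := hk _
    _ ≤ _ := h2

lemma face {a b A B : ℝ} (hA : 0 ≤ A) (hB : 0 ≤ B) (hAB : A ^ 2 + B ^ 2 = 1) (α β : ℝ)
    (hα : 0 ≤ α) (hβ : 0 ≤ β) (h1 : α ^ 2 + β ^ 2 ≤ 1) (ha : a ≤ α * A) (hb : b ≤ β * B)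
    (hab : a + b = 1) : α ≤ A ∧ a = A ^ 2 := by
  have h2 : (α - A) ^ 2 + (β - B) ^ 2 ≤ 0 := by nlinarith
  have h3 : α = A := by nlinarith [sq_nonneg (α - A), sq_nonneg (β - B)]
  have h4 : β = B := by nlinarith [sq_nonneg (α - A), sq_nonneg (β - B)]
  subst h3 h4
  exact ⟨le_rfl, by nlinarith⟩

lemma dual_sq {X Y W : Type} [NormedAddCommGroup X] [NormedSpace ℝ X] [NormedAddCommGroup Y]
    [NormedSpace ℝ Y] [NormedAddCommGroup W] [NormedSpace ℝ W] (J : Y →L[ℝ] X) (K : W →L[ℝ] X)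
    (h : ∀ y w, ‖J y + K w‖ ^ 2 = ‖y‖ ^ 2 + ‖w‖ ^ 2) (f : X →L[ℝ] ℝ) (hf : ‖f‖ = 1) :
    ‖f.comp J‖ ^ 2 + ‖f.comp K‖ ^ 2 ≤ 1 := by
  set α := ‖f.comp J‖
  set β := ‖f.comp K‖
  have hα : 0 ≤ α := norm_nonneg _
  have hβ : 0 ≤ β := norm_nonneg _
  set s := Real.sqrt (α ^ 2 + β ^ 2)
  have hs : s ^ 2 = α ^ 2 + β ^ 2 := Real.sq_sqrt (by positivity)
  have hs0 : 0 ≤ s := Real.sqrt_nonneg _
  have key : ∀ y w, ‖y‖ ≤ 1 → ‖w‖ ≤ 1 → α * |f (J y)| + β * |f (K w)| ≤ s := by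
    intro y w hy hw
    obtain ⟨σ, hσ, e1⟩ : ∃ σ : ℝ, |σ| = 1 ∧ σ * f (J y) = |f (J y)| := by
      rcases abs_cases (f (J y)) with ⟨h, _⟩ | ⟨h, _⟩
      · exact ⟨1, by simp, by simp [h]⟩
      · exact ⟨-1, by simp, by simp [h]⟩
    obtain ⟨τ, hτ, e2⟩ : ∃ τ : ℝ, |τ| = 1 ∧ τ * f (K w) = |f (K w)| := by
      rcases abs_cases (f (K w)) with ⟨h, _⟩ | ⟨h, _⟩
      · exact ⟨1, by simp, by simp [h]⟩
      · exact ⟨-1, by simp, by simp [h]⟩
    have h1 := h ((α * σ) • y) ((β * τ) • w)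
    have h2 := f.le_opNorm (J ((α * σ) • y) + K ((β * τ) • w))
    rw [hf, one_mul, map_add, map_smul, map_smul, map_smul, map_smul, smul_eq_mul, smul_eq_mul,
      mul_assoc, mul_assoc, e1, e2] at h2
    rw [norm_smul, norm_smul, Real.norm_eq_abs, Real.norm_eq_abs, abs_mul, abs_mul, hσ, hτ,
      abs_of_nonneg hα, abs_of_nonneg hβ, map_smul, map_smul, mul_assoc, mul_assoc] at h1
    refine (le_abs_self _).trans (h2.trans ?_)
    apply Real.le_sqrt_of_sq_le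
    rw [← mul_assoc, ← mul_assoc] at h1
    simp only [mul_assoc] at h1 ⊢
    rw [h1]
    have p1 : ‖y‖ ^ 2 ≤ 1 := pow_le_one₀ (norm_nonneg _) hy
    have p2 : ‖w‖ ^ 2 ≤ 1 := pow_le_one₀ (norm_nonneg _) hw
    simp only [one_mul, mul_pow]
    nlinarith [mul_le_mul_of_nonneg_left p1 (sq_nonneg α), mul_le_mul_of_nonneg_left p2 (sq_nonneg β)]
  have k2 : ∀ w, ‖w‖ ≤ 1 → α * α + β * |f (K w)| ≤ s := by
    intro w hw
    have : ‖α • f.comp J‖ ≤ s - β * |f (K w)| := by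
      refine ContinuousLinearMap.opNorm_le_of_unit_norm ?_ fun y hy => ?_
      · have := key 0 w (by simp) hw
        simp at this
        linarith
      · have := key y w hy.le hw
        simp only [smul_apply, ContinuousLinearMap.comp_apply, smul_eq_mul, Real.norm_eq_abs,
          abs_mul, abs_of_nonneg hα]
        linarith
    rw [norm_smul, Real.norm_eq_abs, abs_of_nonneg hα] at this
    linarith
  have k3 : β * β ≤ s - α * α := by
    have : ‖β • f.comp K‖ ≤ s - α * α := by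
      refine ContinuousLinearMap.opNorm_le_of_unit_norm ?_ fun w hw => ?_
      · have := k2 0 (by simp)
        simp at this
        linarith
      · have := k2 w hw.le
        simp only [smul_apply, ContinuousLinearMap.comp_apply, smul_eq_mul, Real.norm_eq_abs,
          abs_mul, abs_of_nonneg hβ]
        linarith
    rwa [norm_smul, Real.norm_eq_abs, abs_of_nonneg hβ] at this
  have : s ≤ 1 := by nlinarith
  nlinarith

lemma half {X Y W : Type} [NormedAddCommGroup X] [NormedSpace ℝ X] [NormedAddCommGroup Y]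
    [NormedSpace ℝ Y] [NormedAddCommGroup W] [NormedSpace ℝ W] [Nontrivial Y] (J : Y →L[ℝ] X)
    (K : W →L[ℝ] X) (P : X →L[ℝ] Y) (Q : X →L[ℝ] W)
    (h : ∀ y w, ‖J y + K w‖ ^ 2 = ‖y‖ ^ 2 + ‖w‖ ^ 2) (hx : ∀ x, J (P x) + K (Q x) = x)
    (hPJ : ∀ y, P (J y) = y) : secondIndex X ≤ secondIndex Y := by
  have hn : ∀ x, ‖x‖ ^ 2 = ‖P x‖ ^ 2 + ‖Q x‖ ^ 2 := fun x => by rw [← h, hx]
  refine compare J P (fun y => ?_) (fun x => ?_) hPJ fun x f h1 h2 h3 => ?_
  · have := h y 0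
    simp only [map_zero, add_zero, norm_zero] at this
    exact (pow_left_inj₀ (norm_nonneg _) (norm_nonneg _) two_ne_zero).1 (by linarith)
  · exact (pow_le_pow_iff_left₀ (norm_nonneg _) (norm_nonneg _) two_ne_zero).1
      (by nlinarith [hn x, sq_nonneg ‖Q x‖])
  · refine face (b := f (K (Q x))) (norm_nonneg _) (norm_nonneg (Q x)) (by rw [← hn, h1]; norm_num)
      _ ‖f.comp K‖ (norm_nonneg _) (norm_nonneg _) (dual_sq J K h f h2) ?_ ?_ ?_
    · exact (le_abs_self _).trans ((f.comp J).le_opNorm (P x))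
    · exact (le_abs_self _).trans ((f.comp K).le_opNorm (Q x))
    · rw [← map_add, hx, h3]

/-- The second numerical index of an `ℓ_2`-sum is at most that of each summand. -/
theorem result (Y W : Type) [NormedAddCommGroup Y] [NormedSpace ℝ Y] [CompleteSpace Y]
    [Nontrivial Y] [NormedAddCommGroup W] [NormedSpace ℝ W] [CompleteSpace W] [Nontrivial W] :
    secondIndex (WithLp 2 (Y × W)) ≤ min (secondIndex Y) (secondIndex W) := by
  let e := WithLp.prodContinuousLinearEquiv 2 ℝ Y W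
  let J : Y →L[ℝ] WithLp 2 (Y × W) := e.symm.toContinuousLinearMap.comp (ContinuousLinearMap.inl ℝ Y W)
  let K : W →L[ℝ] WithLp 2 (Y × W) := e.symm.toContinuousLinearMap.comp (ContinuousLinearMap.inr ℝ Y W)
  let P : WithLp 2 (Y × W) →L[ℝ] Y := (ContinuousLinearMap.fst ℝ Y W).comp e.toContinuousLinearMap
  let Q : WithLp 2 (Y × W) →L[ℝ] W := (ContinuousLinearMap.snd ℝ Y W).comp e.toContinuousLinearMap
  have h : ∀ y w, ‖J y + K w‖ ^ 2 = ‖y‖ ^ 2 + ‖w‖ ^ 2 := by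
    intro y w
    rw [WithLp.prod_norm_sq_eq_of_L2]
    simp [J, K, e]
  have hx : ∀ x, J (P x) + K (Q x) = x := by
    intro x
    apply e.injective
    simp [J, K, P, Q]
  refine le_min (half J K P Q h hx fun y => by simp [J, P])
    (half K J Q P (fun w y => by rw [add_comm, h, add_comm]) (fun x => by rw [add_comm, hx])
      fun w => by simp [K, Q])

end Pool.Agent.Results.MP_01d095_an.L2Sum
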